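import Pool.Agent.W580.SH.StmA

namespace Pool.Agent.W19.SH.STARD

open Finset Pool.Agent.W580.SH

theorem main : S_STARD := by
  intro R _ _ S i hS k r p hp
  by_cases hr : ∃ a, r a = i
  · obtain ⟨a, ha⟩ := hr
    have h0 : ∀ j : Fin (k + 1), mn r (fun b => p (j.succAbove b)) = 0 := by
      intro j
      refine Matrix.det_eq_zero_of_row_eq_zero a fun b => ?_
      show p (j.succAbove b) (r a) = 0
      rw [ha]
      exact (hp _).1
    simp only [h0, abs_zero, Finset.sum_const_zero]
    norm_num
  · push Not at hr
    set s : Fin (k + 1) → ℝ := fun j => mn r (fun b => p (j.succAbove b)) with hs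
    set c : Fin (k + 1) → ℝ := fun j => if 0 ≤ (-1) ^ (j : ℕ) * s j then 1 / 2 else 1 / 2 - 1
      with hc
    have hcs : ∀ j : Fin (k + 1), (-1) ^ (j : ℕ) * c j * s j = 1 / 2 * |s j| := by
      intro j
      have h1 : |s j| = |(-1) ^ (j : ℕ) * s j| := by
        rw [abs_mul, abs_pow, abs_neg, abs_one, one_pow, one_mul]
      by_cases h : 0 ≤ (-1) ^ (j : ℕ) * s j
      · have h2 : c j = 1 / 2 := by rw [hc]; simp only [if_pos h]
        rw [h1, abs_of_nonneg h, h2]
        ring
      · have h2 : c j = 1 / 2 - 1 := by rw [hc]; simp only [if_neg h]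
        rw [h1, abs_of_neg (not_le.1 h), h2]
        ring
    have hx : ∀ j : Fin (k + 1), Function.update (p j) i (c j) ∈ S := by
      intro j
      by_cases h : 0 ≤ (-1) ^ (j : ℕ) * s j
      · have h2 : c j = 1 / 2 := by rw [hc]; simp only [if_pos h]
        rw [h2]
        exact (hp j).2.1
      · have h2 : c j = 1 / 2 - 1 := by rw [hc]; simp only [if_neg h]
        rw [h2]
        exact (hp j).2.2
    have hdet : mn (Fin.cons i r : Fin (k + 1) → R) (fun j => Function.update (p j) i (c j)) =
        1 / 2 * ∑ j, |s j| := by
      unfold mn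
      rw [Matrix.det_succ_row_zero, Finset.mul_sum]
      refine Finset.sum_congr rfl fun j _ => ?_
      rw [← hcs j]
      congr 1
      · congr 1
        show Function.update (p j) i (c j) ((Fin.cons i r : Fin (k + 1) → R) 0) = c j
        rw [Fin.cons_zero, Function.update_self]
      · show _ = mn r (fun b => p (j.succAbove b))
        unfold mn
        congr 1
        ext a b
        show Function.update (p (j.succAbove b)) i (c (j.succAbove b))
          ((Fin.cons i r : Fin (k + 1) → R) a.succ) = p (j.succAbove b) (r a)
        rw [Fin.cons_succ, Function.update_of_ne (hr a)]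
    have hle := hS (k + 1) (Fin.cons i r : Fin (k + 1) → R)
      (fun j => Function.update (p j) i (c j)) hx
    rw [hdet] at hle
    have := (abs_le.1 hle).2
    linarith

end Pool.Agent.W19.SH.STARD
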